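import Pool.Agent.Run7.h816.FlowRigid

/-! Smooth rigidity over the orbit space of an affine flow. -/

set_option autoImplicit false

open scoped ContDiff

namespace Pool.Agent.Results.MP_27f33f_gt.AffineFlows

open Pool.Agent.Run7.h816

/-- Let the group `G` act faithfully, properly discontinuously, cocompactly and by affine maps on
`E` and on `E'`, vector spaces of the same finite dimension. Let `c`, `c'` be nontrivial one-parameter
groups of affine maps of `E`, `E'` whose orbits are permuted by `G`. Let `h : E → E'` be a smooth map
which carries orbits of `c` into orbits of `c'`, is equivariant up to displacements along the orbits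
of `c'`, and is injective transversally to the orbits at the level of derivatives. Then there is an
equivariant diffeomorphism `f : E → E'` such that `f x` and `h x` lie on the same orbit of `c'`. In
particular (`h` the identity) two actions on `E` which differ only by displacements along the orbits
of an affine flow are smoothly conjugate. -/
theorem result (G E E' : Type) [Group G]
    [NormedAddCommGroup E] [NormedSpace ℝ E] [FiniteDimensional ℝ E]
    [NormedAddCommGroup E'] [NormedSpace ℝ E'] [FiniteDimensional ℝ E']
    (hdim : Module.finrank ℝ E = Module.finrank ℝ E')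
    (a : G → E → E) (ha : AffCrystal a) (a' : G → E' → E') (ha' : AffCrystal a')
    (c : ℝ → E → E) (hc : AffFlow c) (hperm : ∀ g s x, SameOrbit c (a g x) (a g (c s x)))
    (hnt : ∃ s x, c s x ≠ x)
    (c' : ℝ → E' → E') (hc' : AffFlow c')
    (hperm' : ∀ g s x, SameOrbit c' (a' g x) (a' g (c' s x))) (hnt' : ∃ s x, c' s x ≠ x)
    (h : E → E') (hh : ContDiff ℝ ∞ h) (h1 : ∀ s x, SameOrbit c' (h x) (h (c s x)))
    (h2 : ∀ g x, SameOrbit c' (a' g (h x)) (h (a g x)))
    (h3 : ∀ (x u : E) (r : ℝ), fderiv ℝ h x u = r • velocity c' (h x) →
      ∃ r' : ℝ, u = r' • velocity c x) :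
    ∃ f : E ≃ E', EquivDiffeo a a' f ∧ ∀ x, SameOrbit c' (h x) (f x) :=
  flow_rigid hdim ha.crys ha'.crys hc hperm hnt hc' hperm' hnt' hh h1 h2 h3

end Pool.Agent.Results.MP_27f33f_gt.AffineFlows
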