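import Pool.Agent.Run7.h816.DegTwist

/-! A polynomial map which is equivariant up to bounded errors forces a diffeomorphism. -/

set_option autoImplicit false

namespace Pool.Agent.Results.MP_27f33f_gt.BoundedPolynomial

open Pool.Agent.Run7.h816

/-- Let the group `G` act faithfully, properly discontinuously, cocompactly and by affine maps on
`E` and on `E'`, vector spaces of the same finite dimension. Let `p : E → Q`, `p' : E' → Q'` be
surjective affine maps, equivariant for actions `ρ`, `ρ'` of `G` on `Q`, `Q'` which need not be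
proper, with `dim Q = dim Q'`, and let `T` be a normal subgroup acting on `E`, `E'` by translations
along the fibres, whose rank is at least the dimension of the fibres minus one. Let `ψ : Q → Q'` be
a polynomial map of degree at most `d` such that the values at every point of the maps
`ρ'(g) ψ ρ(g)⁻¹` stay bounded. If `d ≥ 2` assume that `ρ(g)` and `ρ'(g)` multiply volumes by the same
factor. Then there is an equivariant diffeomorphism `E → E'` over a polynomial map `Q → Q'` of degree
at most `d`. -/
theorem result (G E E' Q Q' : Type) [Group G]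
    [NormedAddCommGroup E] [NormedSpace ℝ E] [FiniteDimensional ℝ E]
    [NormedAddCommGroup E'] [NormedSpace ℝ E'] [FiniteDimensional ℝ E']
    [NormedAddCommGroup Q] [NormedSpace ℝ Q] [FiniteDimensional ℝ Q]
    [NormedAddCommGroup Q'] [NormedSpace ℝ Q'] [FiniteDimensional ℝ Q']
    (hdim : Module.finrank ℝ E = Module.finrank ℝ E')
    (a : G → E → E) (ha : AffCrystal a) (a' : G → E' → E') (ha' : AffCrystal a')
    (p : E → Q) (ρ : G → Q → Q) (hp : AffFib a p ρ)
    (p' : E' → Q') (ρ' : G → Q' → Q') (hp' : AffFib a' p' ρ')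
    (T : Subgroup G) (hTn : T.Normal) (hT : TransAlong a p T) (hT' : TransAlong a' p' T)
    (hrank : Module.finrank ℝ E ≤ Module.finrank ℝ Q + Module.finrank ℝ (transSpan a T) + 1)
    (hdimQ : Module.finrank ℝ Q = Module.finrank ℝ Q') (d : ℕ)
    (hvol : d ≤ 1 ∨ ∀ g, volFactor (ρ g) = volFactor (ρ' g))
    (ψ : Q → Q') (hψ : PolyDeg d ψ) (hψb : BddTwist ρ ρ' ψ) :
    ∃ (f : E ≃ E') (ψ' : Q → Q'), EquivDiffeo a a' f ∧ PolyDeg d ψ' ∧ ∀ x, p' (f x) = ψ' (p x) :=
  deg_twist hdim ha ha' hp hp' hTn hT hT' hrank hdimQ hvol hψ hψb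

end Pool.Agent.Results.MP_27f33f_gt.BoundedPolynomial
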