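import Pool.Agent.Run7.h816.Fibration

/-! Smooth rigidity for fibrations by compact complete affine manifolds. -/

set_option autoImplicit false

open scoped ContDiff

namespace Pool.Agent.Results.MP_27f33f_gt.FibrationPrinciple

open Pool.Agent.Run7.h816

/-- Let the group `G` act faithfully, properly discontinuously, cocompactly and by affine maps on
`E` and on `E'`, vector spaces of the same finite dimension. Let `p : E → Q`, `p' : E' → Q'` be
surjective affine maps, equivariant for actions `ρ`, `ρ'`, and let `N` be a normal subgroup of `G`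
which preserves every fibre of `p` and `p'` and is cocompact on each of them, so that `E/G`, `E'/G`
are fibred by the compact complete affine manifolds (fibre of `p`, `p'`)`/N`. Let `ψ : Q → Q'` be a
smooth equivariant map with bijective derivatives. Suppose that there is a smooth map `s : E → E'`
over `ψ` which is equivariant under `N` only and polynomial on every fibre of `p`, and that the
elements of `N` multiply volumes in `E` and `E'` by the same factor. Then there is a `G`-equivariant
diffeomorphism `E → E'` over `ψ`, which is polynomial on every fibre. -/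
theorem result (G E E' Q Q' : Type) [Group G]
    [NormedAddCommGroup E] [NormedSpace ℝ E] [FiniteDimensional ℝ E]
    [NormedAddCommGroup E'] [NormedSpace ℝ E'] [FiniteDimensional ℝ E']
    [NormedAddCommGroup Q] [NormedSpace ℝ Q] [FiniteDimensional ℝ Q]
    [NormedAddCommGroup Q'] [NormedSpace ℝ Q'] [FiniteDimensional ℝ Q']
    (hdim : Module.finrank ℝ E = Module.finrank ℝ E')
    (a : G → E → E) (ha : AffCrystal a) (a' : G → E' → E') (ha' : AffCrystal a')
    (p : E → Q) (ρ : G → Q → Q) (hp : AffFib a p ρ)
    (p' : E' → Q') (ρ' : G → Q' → Q') (hp' : AffFib a' p' ρ')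
    (N : Subgroup G) (hNn : N.Normal) (hN : FibreCocompact a p N) (hN' : FibreCocompact a' p' N)
    (hvol : ∀ n ∈ N, volFactor (a n) = volFactor (a' n))
    (ψ : Q → Q') (hψ : ContDiff ℝ ∞ ψ) (hψd : ∀ q, Function.Bijective (fderiv ℝ ψ q))
    (hψe : ∀ g q, ψ (ρ g q) = ρ' g (ψ q))
    (s : E → E') (hs : ContDiff ℝ ∞ s) (hsp : ∀ x, p' (s x) = ψ (p x))
    (hsN : ∀ n ∈ N, ∀ x, s (a n x) = a' n (s x)) (hsP : FibrePoly p s) :
    ∃ f : E ≃ E', EquivDiffeo a a' f ∧ (∀ x, p' (f x) = ψ (p x)) ∧ FibrePoly p f :=
  fibration_rigid hdim ha ha' hp hp' hNn hN hN' hvol hψ hψd hψe hs hsp hsN hsP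

end Pool.Agent.Results.MP_27f33f_gt.FibrationPrinciple
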