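import Pool.Agent.Run7.h816.Frame

/-! Smooth rigidity of compact complete affine manifolds over a common transverse structure. -/

set_option autoImplicit false

open scoped ContDiff

namespace Pool.Agent.Results.MP_27f33f_gt.LineOverTransverse

open Pool.Agent.Run7.h816

/-- Let the group `G` act faithfully, properly discontinuously, cocompactly and by affine maps on
`E` and on `E'`, vector spaces of the same finite dimension. Let `p : E → Q`, `p' : E' → Q'` be
surjective affine maps, equivariant for actions `ρ`, `ρ'` of `G` on `Q`, `Q'` which need not be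
proper, and let `T` be a normal subgroup acting on `E`, `E'` by translations along the fibres, whose
rank is at least the dimension of the fibres minus one. If some smooth map `ψ : Q → Q'` with
bijective derivatives is equivariant, then there is an equivariant diffeomorphism `E → E'` over
`ψ`. -/
theorem result (G E E' Q Q' : Type) [Group G]
    [NormedAddCommGroup E] [NormedSpace ℝ E] [FiniteDimensional ℝ E]
    [NormedAddCommGroup E'] [NormedSpace ℝ E'] [FiniteDimensional ℝ E']
    [NormedAddCommGroup Q] [NormedSpace ℝ Q] [FiniteDimensional ℝ Q]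
    [NormedAddCommGroup Q'] [NormedSpace ℝ Q'] [FiniteDimensional ℝ Q']
    (hdim : Module.finrank ℝ E = Module.finrank ℝ E')
    (a : G → E → E) (ha : AffCrystal a) (a' : G → E' → E') (ha' : AffCrystal a')
    (p : E → Q) (ρ : G → Q → Q) (hp : AffFib a p ρ)
    (p' : E' → Q') (ρ' : G → Q' → Q') (hp' : AffFib a' p' ρ')
    (T : Subgroup G) (hTn : T.Normal) (hT : TransAlong a p T) (hT' : TransAlong a' p' T)
    (hrank : Module.finrank ℝ E ≤ Module.finrank ℝ Q + Module.finrank ℝ (transSpan a T) + 1)
    (ψ : Q → Q') (hψ : ContDiff ℝ ∞ ψ) (hψd : ∀ q, Function.Bijective (fderiv ℝ ψ q))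
    (hψe : ∀ g q, ψ (ρ g q) = ρ' g (ψ q)) :
    ∃ f : E ≃ E', EquivDiffeo a a' f ∧ ∀ x, p' (f x) = ψ (p x) :=
  crystal_rigid hdim ha ha' hp hp' hTn hT hT' hrank hψ hψd hψe

end Pool.Agent.Results.MP_27f33f_gt.LineOverTransverse
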